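import Pool.Agent.R731.SK.Final

/-!
# Configuration spaces of graphs with sinks need not be aspherical (MP_c15946_gt, Q1)
-/

set_option autoImplicit false

namespace Pool.Agent.Results.MP_c15946_gt.NotAspherical

open Pool.Agent.R731.SK

/-- The second homotopy group of the unordered configuration space `B_2(Γ, {v})` of the bouquet
`Γ` of three loops at `v`, with the vertex `v` as a sink, is nontrivial; in particular it is not
true that `F_k(Γ, S)` and `B_k(Γ, S)` are aspherical for all finite graphs with sinks `(Γ, S)` and
all `k`. -/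
theorem result :
    (∃ x : UConf B3 Set.univ 2, ¬ Subsingleton (HomotopyGroup.Pi 2 (UConf B3 Set.univ 2) x)) ∧
    ¬ ∀ (Γ : Graph) (S : Set Γ.V) (k : ℕ),
      Aspherical (Conf Γ S k) ∧ Aspherical (UConf Γ S k) :=
  ⟨⟨base, not_subsingleton_pi2⟩, main⟩

end Pool.Agent.Results.MP_c15946_gt.NotAspherical
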